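import Mathlib
import Pool.Agent.H23.Cyc

set_option autoImplicit false
set_option maxSynthPendingDepth 3

namespace Pool.Agent.Results.MP_4ec1df_co.Theta
open Finset

/-- `c x y` is the colour of the edge of `K_{N,N}` joining `x` (left class) to `y` (right class).
There is a zero-sum cycle `x 0, y 0, x 1, y 1, ..., x (k-1), y (k-1), x 0` of length `2k`
on distinct vertices (`finRotate k i` is `i + 1` modulo `k`). -/
def ZeroSumCycle {N : ℕ} {G : Type} [AddCommGroup G] (c : Fin N → Fin N → G) (k : ℕ) : Prop :=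
  ∃ x y : Fin k → Fin N, Function.Injective x ∧ Function.Injective y ∧
    ∑ i, (c (x i) (y i) + c (x (finRotate k i)) (y i)) = 0

/-- the zero-sum bipartite Ramsey number of `{C_4, C_6, ..., C_{2m}}` over `Z_2^d` -/
noncomputable def B (m d : ℕ) : ℕ :=
  sInf {N : ℕ | ∀ c : Fin N → Fin N → (Fin d → ZMod 2),
    ∃ k, 2 ≤ k ∧ k ≤ m ∧ ZeroSumCycle c k}

lemma rot_val {k : ℕ} (i : Fin k) : (finRotate k i).val = (i.val + 1) % k := by
  cases k with
  | zero => exact i.elim0
  | succ k => rw [finRotate_apply, Fin.val_add]; simp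

lemma two_zero {d : ℕ} (g : Fin d → ZMod 2) : g + g = 0 := by
  funext i
  exact CharTwo.add_self_eq_zero _

lemma upper (m d N : ℕ) (hN : 2 * (4 * (m + 1) ^ 3) ^ m * 2 ^ d < N ^ m) (hm : 1 ≤ m)
    (c : Fin N → Fin N → (Fin d → ZMod 2)) : ∃ k, 2 ≤ k ∧ k ≤ m + 1 ∧ ZeroSumCycle c k := by
  classical
  by_contra hc
  have N0 : 0 < N := by
    rcases Nat.eq_zero_or_pos N with h | h
    · rw [h, zero_pow (by omega)] at hN; omega
    · exact h
  have : Nonempty (Fin N) := ⟨⟨0, N0⟩⟩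
  let col : Bool → Fin N → Fin N → (Fin d → ZMod 2) := fun s u v => if s = true then c u v else c v u
  let adj : (Bool × Fin N) × (Fin d → ZMod 2) → (Bool × Fin N) × (Fin d → ZMod 2) → Prop :=
    fun a b => b.1.1 = !a.1.1 ∧ b.2 = a.2 + col a.1.1 a.1.2 b.1.2
  have key : ∀ k, 2 ≤ k → k ≤ m + 1 → ∀ x : ℕ → (Bool × Fin N) × (Fin d → ZMod 2),
      (∀ i, x (i + 2 * k) = x i) → (∀ i, adj (x i) (x (i + 1))) → (x 0).1.1 = true →
      ∃ i j, i < j ∧ j < 2 * k ∧ (x i).1 = (x j).1 := by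
    intro k k2 km x xp xa x0
    by_contra hne
    push Not at hne
    have side : ∀ i, (x (2 * i)).1.1 = true ∧ (x (2 * i + 1)).1.1 = false := by
      intro i
      induction i with
      | zero => exact ⟨x0, by rw [(xa _).1, mul_zero, x0]; rfl⟩
      | succ i ih =>
        have : (x (2 * (i + 1))).1.1 = true := by
          rw [show 2 * (i + 1) = 2 * i + 1 + 1 by ring, (xa _).1, ih.2]; rfl
        exact ⟨this, by rw [(xa _).1, this]; rfl⟩
    have tel : ∀ l, (x (2 * l)).2 = (x 0).2 + ∑ i ∈ range l,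
        (c (x (2 * i)).1.2 (x (2 * i + 1)).1.2 + c (x (2 * (i + 1))).1.2 (x (2 * i + 1)).1.2) := by
      intro l
      induction l with
      | zero => simp
      | succ l ih =>
        rw [sum_range_succ, ← add_assoc, ← ih, show 2 * (l + 1) = 2 * l + 1 + 1 by ring,
          (xa _).2, (xa (2 * l)).2, (side l).1, (side l).2]
        simp only [col, if_true, Bool.false_eq_true, if_false, add_assoc]
    refine hc ⟨k, k2, km, fun i => (x (2 * i.val)).1.2, fun i => (x (2 * i.val + 1)).1.2,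
      fun i j e => ?_, fun i j e => ?_, ?_⟩
    · have e' : (x (2 * i.val)).1 = (x (2 * j.val)).1 :=
        Prod.ext ((side _).1.trans (side _).1.symm) e
      rcases lt_trichotomy i.val j.val with l | l | l
      · exact absurd e' (hne _ _ (by omega) (by omega))
      · exact Fin.ext l
      · exact absurd e'.symm (hne _ _ (by omega) (by omega))
    · have e' : (x (2 * i.val + 1)).1 = (x (2 * j.val + 1)).1 :=
        Prod.ext ((side _).2.trans (side _).2.symm) e
      rcases lt_trichotomy i.val j.val with l | l | l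
      · exact absurd e' (hne _ _ (by omega) (by omega))
      · exact Fin.ext l
      · exact absurd e'.symm (hne _ _ (by omega) (by omega))
    · have t := tel k
      have p := xp 0
      rw [zero_add] at p
      rw [p, ← Fin.sum_univ_eq_sum_range (fun i => c (x (2 * i)).1.2 (x (2 * i + 1)).1.2 +
        c (x (2 * (i + 1))).1.2 (x (2 * i + 1)).1.2)] at t
      rw [← left_eq_add.mp t]
      refine sum_congr rfl fun i _ => ?_
      have : x (2 * (finRotate k i).val) = x (2 * (i.val + 1)) := by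
        rw [rot_val]
        by_cases e : i.val + 1 = k
        · rw [e, Nat.mod_self, p]
        · rw [Nat.mod_eq_of_lt (by omega)]
      simp only [this]
  have := Pool.Agent.H23.Cyc.main adj Prod.fst N m (fun w => ?_) (fun u v h => ?_)
    (fun w u v hu hv e => ?_) (fun k k2 km x xp xa => ?_)
  · simp only [Fintype.card_prod, Fintype.card_bool, Fintype.card_fin, Fintype.card_fun,
      ZMod.card] at this
    have h2 : N ^ (m + 2) * N ^ m ≤ N ^ (m + 2) * (2 * (4 * (m + 1) ^ 3) ^ m * 2 ^ d) := by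
      calc _ = N ^ (2 * (m + 1)) := by ring
        _ ≤ _ := this
        _ = _ := by ring
    have := Nat.le_of_mul_le_mul_left h2 (by positivity)
    omega
  · have : univ.filter (adj w) = univ.image fun v : Fin N =>
        ((!w.1.1, v), w.2 + col w.1.1 w.1.2 v) := by
      ext ⟨⟨s, v⟩, g⟩
      simp only [adj, mem_filter, mem_univ, true_and, mem_image, Prod.mk.injEq]
      constructor
      · rintro ⟨h1, h2⟩
        exact ⟨v, ⟨h1.symm, rfl⟩, h2.symm⟩
      · rintro ⟨v', ⟨h1, rfl⟩, h2⟩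
        exact ⟨h1.symm, h2.symm⟩
    rw [this, card_image_of_injective _ fun a b e => by simpa using (Prod.ext_iff.mp e).1]
    simp
  · obtain ⟨⟨s, a⟩, g⟩ := u
    obtain ⟨⟨s', b⟩, g'⟩ := v
    simp only [adj] at h ⊢
    obtain ⟨rfl, rfl⟩ := h
    refine ⟨by simp, ?_⟩
    cases s <;> simp [col, add_assoc, two_zero]
  · refine Prod.ext e ?_
    rw [hu.2, hv.2, e]
  · cases x0 : (x 0).1.1
    · obtain ⟨i, j, a1, a2, a3⟩ := key k k2 km (fun i => x (i + 1))
        (fun i => by rw [← xp (i + 1)]; congr 1; omega) (fun i => xa _)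
        (by rw [(xa 0).1, x0]; rfl)
      by_cases e : j + 1 = 2 * k
      · refine ⟨0, i + 1, by omega, by omega, ?_⟩
        rw [a3, e, ← xp 0, zero_add]
      · exact ⟨i + 1, j + 1, by omega, by omega, a3⟩
    · exact key k k2 km x xp xa x0

lemma lower (m d t N : ℕ) (ht : t ≠ 0) (hd : m * t ≤ d) (hN : N ≤ 2 ^ t) :
    ∃ c : Fin N → Fin N → (Fin d → ZMod 2), ∀ k, 2 ≤ k → k ≤ m + 1 → ¬ ZeroSumCycle c k := by
  classical
  have : Fact (Nat.Prime 2) := ⟨Nat.prime_two⟩
  have : Fintype (GaloisField 2 t) := Fintype.ofFinite _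
  obtain ⟨e⟩ : Nonempty (Fin N ↪ GaloisField 2 t) := Function.Embedding.nonempty_of_card_le (by
    rw [Fintype.card_fin, ← Nat.card_eq_fintype_card, GaloisField.card 2 t ht]; exact hN)
  obtain ⟨φ, hφ⟩ := (finrank_le_iff_exists_linearMap (R := ZMod 2)
    (M := Fin m → GaloisField 2 t) (M' := Fin d → ZMod 2)).mp (by
      simpa [Module.finrank_pi_fintype, GaloisField.finrank 2 ht] using hd)
  refine ⟨fun x y => φ fun j => e x * e y ^ (j.val + 1), fun k k2 km => ?_⟩
  rintro ⟨x, y, hx, hy, h⟩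
  simp only [← map_add, ← map_sum] at h
  have h0 := hφ (h.trans (map_zero φ).symm)
  have := Matrix.eq_zero_of_forall_pow_sum_mul_pow_eq_zero
    (f := fun i => e (y i)) (v := fun i => e (x i) + e (x (finRotate k i)))
    (e.injective.comp hy) (fun j => by
      rcases Nat.eq_zero_or_pos j.val with c | c
      · simp only [c, pow_zero, mul_one, sum_add_distrib]
        rw [Equiv.sum_comp (finRotate k) fun i => e (x i)]
        exact CharTwo.add_self_eq_zero _
      · have := congrFun h0 ⟨j.val - 1, by omega⟩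
        simp only [Finset.sum_apply, Pi.add_apply, Pi.zero_apply,
          show j.val - 1 + 1 = j.val by omega] at this
        simpa only [add_mul] using this)
  have h1 := congrFun this ⟨0, by omega⟩
  simp only [Pi.zero_apply] at h1
  have h2 := congrArg Fin.val (hx (e.injective (CharTwo.add_eq_zero.mp h1)))
  rw [rot_val, Nat.mod_eq_of_lt (by simp only; omega)] at h2
  simp at h2

theorem result (m : ℕ) (hm : 2 ≤ m) : ∃ c C : ℝ, 0 < c ∧ c ≤ C ∧ ∃ d0 : ℕ, ∀ d ≥ d0,
    c * (2 : ℝ) ^ ((d : ℝ) / ((m : ℝ) - 1)) ≤ B m d ∧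
      (B m d : ℝ) ≤ C * (2 : ℝ) ^ ((d : ℝ) / ((m : ℝ) - 1)) := by
  obtain ⟨m, rfl⟩ : ∃ n, m = n + 1 := ⟨m - 1, by omega⟩
  have m1 : 1 ≤ m := by omega
  refine ⟨1 / 2, 2 * (8 * (m + 1) ^ 3 + 1), by norm_num, ?_, m, fun d hd => ?_⟩
  · have : (0 : ℝ) ≤ 8 * (m + 1) ^ 3 := by positivity
    linarith
  have mpos : (0 : ℝ) < m := by exact_mod_cast m1
  have e : ((m + 1 : ℕ) : ℝ) - 1 = m := by push_cast; ring
  rw [e]
  have t1 : m * (d / m) ≤ d := Nat.mul_div_le d m
  have t2 : d < m * (d / m + 1) := Nat.lt_mul_div_succ d (by omega)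
  have t0 : d / m ≠ 0 := by
    have := Nat.div_pos hd (by omega : 0 < m)
    omega
  generalize d / m = t at t0 t1 t2
  have r1 : (2 : ℝ) ^ t ≤ 2 ^ ((d : ℝ) / m) := by
    rw [← Real.rpow_natCast]
    refine Real.rpow_le_rpow_of_exponent_le (by norm_num) ?_
    rw [le_div_iff₀ mpos, mul_comm]
    exact_mod_cast t1
  have r2 : (2 : ℝ) ^ ((d : ℝ) / m) ≤ 2 ^ (t + 1) := by
    rw [← Real.rpow_natCast]
    refine Real.rpow_le_rpow_of_exponent_le (by norm_num) ?_
    rw [div_le_iff₀ mpos, mul_comm]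
    exact_mod_cast t2.le
  have mem : (8 * (m + 1) ^ 3 + 1) * 2 ^ (t + 1) ∈ {N : ℕ | ∀ c : Fin N → Fin N → (Fin d → ZMod 2),
      ∃ k, 2 ≤ k ∧ k ≤ m + 1 ∧ ZeroSumCycle c k} := by
    refine upper m d _ ?_ m1
    have a1 : 2 ^ d ≤ (2 ^ (t + 1)) ^ m := by
      rw [← pow_mul, mul_comm]; exact Nat.pow_le_pow_right (by norm_num) t2.le
    have a2 : 2 * (4 * (m + 1) ^ 3) ^ m < (8 * (m + 1) ^ 3 + 1) ^ m := by
      have a3 : 2 ≤ 2 ^ m := by
        calc 2 = 2 ^ 1 := by norm_num
          _ ≤ 2 ^ m := Nat.pow_le_pow_right (by norm_num) m1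
      calc 2 * (4 * (m + 1) ^ 3) ^ m ≤ 2 ^ m * (4 * (m + 1) ^ 3) ^ m := Nat.mul_le_mul_right _ a3
        _ = (8 * (m + 1) ^ 3) ^ m := by rw [← mul_pow]; congr 1; ring
        _ < _ := Nat.pow_lt_pow_left (by omega) (by omega)
    rw [mul_pow (8 * (m + 1) ^ 3 + 1)]
    exact Nat.mul_lt_mul_of_lt_of_le a2 a1 (by positivity)
  constructor
  · have a1 : 2 ^ t < B (m + 1) d := by
      by_contra h
      obtain ⟨c, hc⟩ := lower m d t (B (m + 1) d) t0 t1 (not_lt.mp h)
      obtain ⟨k, k1, k2, k3⟩ := Nat.sInf_mem ⟨_, mem⟩ c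
      exact hc k k1 k2 k3
    have a2 : (2 : ℝ) ^ t ≤ B (m + 1) d := by exact_mod_cast a1.le
    rw [pow_succ] at r2
    linarith
  · have a1 : B (m + 1) d ≤ (8 * (m + 1) ^ 3 + 1) * 2 ^ (t + 1) := Nat.sInf_le mem
    have a2 : (B (m + 1) d : ℝ) ≤ (8 * (m + 1) ^ 3 + 1) * 2 ^ (t + 1) := by exact_mod_cast a1
    have a3 : (0 : ℝ) ≤ 8 * (m + 1) ^ 3 + 1 := by positivity
    rw [pow_succ 2 t] at a2
    nlinarith [mul_le_mul_of_nonneg_left r1 a3]

end Pool.Agent.Results.MP_4ec1df_co.Theta
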